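import Mathlib
import Pool.Agent.N662.FP.Stm2
import Pool.Agent.N390.FL.TI

set_option autoImplicit false

/-!
# Project FM, leaf TIL (helper195): translation invariance of the law of the passage time
-/

open MeasureTheory ProbabilityTheory Filter Set

namespace Pool.Agent.N195.FM

open Pool.Agent.N662.FP
open Pool.Agent.N390.FL.TI (sg sg_inj D_shift)

theorem t_TIL (h1 : S_ME) (h2 : S_AE) : S_TIL := by
  intro Ω _ _ X hX a v s
  have hm := h1 0 v
  set Φ : (Sym2 (ℤ × ℤ) → ℝ) → ℝ := fun x => D (fun e => max (x e) 0) 0 v with hΦ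
  have hae := h2 Ω X hX
  have hE : MeasurableSet {x | s ≤ Φ x} := measurableSet_le measurable_const hm
  -- both sides through `Φ`
  have e1 : (volume : Measure Ω) {ω | s ≤ D (env X ω) a (a + v)} =
      (volume : Measure Ω) ((fun ω (e : Sym2 (ℤ × ℤ)) => X (sg a e) ω) ⁻¹' {x | s ≤ Φ x}) := by
    refine measure_congr ?_
    filter_upwards [hae] with ω hω
    have h3 : D (env X ω) a (a + v) = Φ (fun e => X (sg a e) ω) := by
      rw [D_shift]
      show D _ 0 v = D _ 0 v
      congr 1
      funext e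
      exact (max_eq_left (hω (sg a e))).symm
    show (s ≤ D (env X ω) a (a + v)) = (s ≤ Φ (fun e => X (sg a e) ω))
    rw [h3]
  have e2 : (volume : Measure Ω) {ω | s ≤ D (env X ω) 0 v} =
      (volume : Measure Ω) ((fun ω (e : Sym2 (ℤ × ℤ)) => X e ω) ⁻¹' {x | s ≤ Φ x}) := by
    refine measure_congr ?_
    filter_upwards [hae] with ω hω
    have h3 : D (env X ω) 0 v = Φ (fun e => X e ω) := by
      show D _ 0 v = D _ 0 v
      congr 1
      funext e
      exact (max_eq_left (hω e)).symm
    show (s ≤ D (env X ω) 0 v) = (s ≤ Φ (fun e => X e ω))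
    rw [h3]
  have m1 : Measurable (fun ω (e : Sym2 (ℤ × ℤ)) => X (sg a e) ω) :=
    measurable_pi_iff.2 fun e => hX.meas _
  have m2 : Measurable (fun ω (e : Sym2 (ℤ × ℤ)) => X e ω) := measurable_pi_iff.2 fun e => hX.meas e
  have l1 : Measure.map (fun ω (e : Sym2 (ℤ × ℤ)) => X (sg a e) ω) (volume : Measure Ω) =
      Measure.infinitePi (fun _ : Sym2 (ℤ × ℤ) => expMeasure 1) := by
    have h3 : iIndepFun (fun e => X (sg a e)) (volume : Measure Ω) := hX.ind.precomp (sg_inj a)
    have h4 := (iIndepFun_iff_map_fun_eq_infinitePi_map (fun e => hX.meas (sg a e))).1 h3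
    rw [h4]
    congr 1
    funext e
    exact hX.law _
  have l2 : Measure.map (fun ω (e : Sym2 (ℤ × ℤ)) => X e ω) (volume : Measure Ω) =
      Measure.infinitePi (fun _ : Sym2 (ℤ × ℤ) => expMeasure 1) := by
    have h4 := (iIndepFun_iff_map_fun_eq_infinitePi_map hX.meas).1 hX.ind
    rw [h4]
    congr 1
    funext e
    exact hX.law _
  rw [measureReal_def, measureReal_def, e1, e2, ← Measure.map_apply m1 hE,
    ← Measure.map_apply m2 hE, l1, l2]

end Pool.Agent.N195.FM
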